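import Pool.Agent.D0H10.BP.Stm

/-! # DEC: one lonely prime splits off -/

set_option autoImplicit false

open scoped Classical

namespace Pool.Agent.D0H10.BP

open Finset Filter
open Pool.Agent.D0H10.PS

/-- the generating function modulo 2 -/
noncomputable def gen (A : Set ℕ) : PowerSeries (ZMod 2) := PowerSeries.mk fun n => (pA A n : ZMod 2)

lemma pA_empty (A : Set ℕ) (hA : ∀ j, j ∉ A) (n : ℕ) : pA A n = if n = 0 then 1 else 0 := by
  unfold pA Nat.Partition.restricted
  by_cases hn : n = 0
  · subst hn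
    rw [if_pos rfl, filter_true_of_mem]
    · rw [card_univ, Fintype.card_unique]
    · intro p _ i hi
      have h1 := p.parts_pos hi
      have h2 := p.le_of_mem_parts hi
      omega
  · rw [if_neg hn, card_eq_zero, filter_eq_empty_iff]
    intro p _ h
    have h1 : p.parts = 0 := Multiset.eq_zero_of_forall_notMem fun i hi => hA i (h i hi)
    have h2 := p.parts_sum
    rw [h1, Multiset.sum_zero] at h2
    exact hn h2.symm

/-- the product formula -/
theorem gen_mul (A : Finset ℕ) (hA : ∀ a ∈ A, 0 < a) :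
    ((∏ a ∈ A, (1 - Polynomial.X ^ a) : Polynomial (ZMod 2)) : PowerSeries (ZMod 2)) *
      gen (A : Set ℕ) = 1 := by
  induction A using Finset.induction_on with
  | empty =>
    rw [prod_empty, Polynomial.coe_one, one_mul]
    ext n
    unfold gen
    rw [PowerSeries.coeff_mk, pA_empty _ (fun j => by simp), PowerSeries.coeff_one]
    split_ifs <;> simp
  | insert a A ha ih =>
    have ih' := ih fun b hb => hA b (mem_insert_of_mem hb)
    have ha0 : 0 < a := hA a (mem_insert_self _ _)
    rw [prod_insert ha, Polynomial.coe_mul, mul_comm ((1 - Polynomial.X ^ a : Polynomial (ZMod 2)) :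
      PowerSeries (ZMod 2)), mul_assoc]
    have key : ((1 - Polynomial.X ^ a : Polynomial (ZMod 2)) : PowerSeries (ZMod 2)) *
        gen ((insert a A : Finset ℕ) : Set ℕ) = gen (A : Set ℕ) := by
      have e1 : ((1 - Polynomial.X ^ a : Polynomial (ZMod 2)) : PowerSeries (ZMod 2)) =
          1 - PowerSeries.X ^ a := by
        rw [Polynomial.coe_sub, Polynomial.coe_one, Polynomial.coe_pow, Polynomial.coe_X]
      rw [e1, sub_mul, one_mul]
      ext n
      rw [map_sub, PowerSeries.coeff_X_pow_mul']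
      unfold gen
      simp only [PowerSeries.coeff_mk]
      have hset : ((insert a A : Finset ℕ) : Set ℕ) \ {a} = (A : Set ℕ) := by
        rw [Finset.coe_insert, Set.insert_sdiff_self_of_notMem]
        exact_mod_cast ha
      by_cases han : a ≤ n
      · rw [if_pos han, pA_insert (A := ((insert a A : Finset ℕ) : Set ℕ)) (a := a) (by simp) ha0 han,
          hset]
        push_cast
        ring
      · rw [if_neg han, sub_zero]
        congr 1
        refine pA_congr fun j _ hj => ?_
        rw [Finset.coe_insert, Set.mem_insert_iff]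
        constructor
        · rintro (h | h)
          · omega
          · exact h
        · intro h; exact Or.inr h
    rw [key, ih']

lemma dvd_one_sub {a b : ℕ} (h : a ∣ b) :
    (1 - Polynomial.X ^ a : Polynomial (ZMod 2)) ∣ 1 - Polynomial.X ^ b := by
  obtain ⟨c, rfl⟩ := h
  rw [pow_mul]
  exact one_sub_dvd_one_sub_pow _ _

/-- the product divides `1 - X ^ (L * 2 ^ c)` -/
lemma prod_dvd (B : Finset ℕ) (L c : ℕ) (hB : ∀ b ∈ B, b ∣ L) (hc : B.card ≤ 2 ^ c) :
    (∏ a ∈ B, (1 - Polynomial.X ^ a) : Polynomial (ZMod 2)) ∣ 1 - Polynomial.X ^ (L * 2 ^ c) := by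
  have h1 : (∏ a ∈ B, (1 - Polynomial.X ^ a) : Polynomial (ZMod 2)) ∣
      ∏ _a ∈ B, (1 - Polynomial.X ^ L : Polynomial (ZMod 2)) :=
    prod_dvd_prod_of_dvd _ _ fun b hb => dvd_one_sub (hB b hb)
  rw [prod_const] at h1
  have h2 : (1 - Polynomial.X ^ L : Polynomial (ZMod 2)) ^ 2 ^ c = 1 - Polynomial.X ^ (L * 2 ^ c) := by
    rw [sub_pow_char_pow, one_pow, ← pow_mul]
  rw [← h2]
  exact h1.trans (pow_dvd_pow _ hc)

lemma add_self2 (x : ZMod 2) : x + x = 0 := by
  revert x; decide

lemma eq_of_add2 {x y : ZMod 2} (h : x + y = 0) : x = y := by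
  revert x y; decide

lemma per_mod {α : Type} {f : ℕ → α} {P a b : ℕ} (hf : Function.Periodic f P) (h : a ≡ b [MOD P]) :
    f a = f b := by
  rw [← hf.map_mod_nat a, ← hf.map_mod_nat b, h]

/-- the sequence level form: `(1 - X^l)(1 - X^N) gen` is a polynomial of degree at most `N` -/
lemma diff_per (A : Set ℕ) (l N : ℕ) (K : Polynomial (ZMod 2)) (hK : K.natDegree ≤ N) (hl : 0 < l)
    (h : ((1 - Polynomial.X ^ l : Polynomial (ZMod 2)) : PowerSeries (ZMod 2)) *
      (((1 - Polynomial.X ^ N : Polynomial (ZMod 2)) : PowerSeries (ZMod 2)) * gen A) = K) (n : ℕ) :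
    ((pA A (n + l + N) : ZMod 2) + pA A (n + l)) = pA A (n + N) + pA A n := by
  have h1 := congrArg (PowerSeries.coeff (n + l + N)) h
  rw [Polynomial.coeff_coe, Polynomial.coeff_eq_zero_of_natDegree_lt (by omega)] at h1
  have e1 : ∀ k : ℕ, ((1 - Polynomial.X ^ k : Polynomial (ZMod 2)) : PowerSeries (ZMod 2)) =
      1 - PowerSeries.X ^ k := by
    intro k
    rw [Polynomial.coe_sub, Polynomial.coe_one, Polynomial.coe_pow, Polynomial.coe_X]
  rw [e1, e1, sub_mul, one_mul, map_sub, PowerSeries.coeff_X_pow_mul', if_pos (by omega), sub_mul,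
    one_mul, map_sub, map_sub, PowerSeries.coeff_X_pow_mul', if_pos (by omega),
    PowerSeries.coeff_X_pow_mul', if_pos (by omega)] at h1
  unfold gen at h1
  simp only [PowerSeries.coeff_mk] at h1
  rw [show n + l + N - N = n + l by omega, show n + l + N - l = n + N by omega,
    show n + N - N = n by omega] at h1
  rw [CharTwo.sub_eq_add, CharTwo.sub_eq_add, CharTwo.sub_eq_add] at h1
  exact eq_of_add2 h1

/-- a difference with a period prime to the step splits off a function of this period -/
lemma split_of (s : ℕ → ZMod 2) (l N : ℕ) (hlN : l.Coprime N)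
    (hs : Function.Periodic s (l * N))
    (hD : ∀ n, s (n + l + N) + s (n + l) = s (n + N) + s n) :
    ∃ u : ℕ → ZMod 2, Function.Periodic u l ∧ Function.Periodic (fun n => s n + u n) N := by
  obtain ⟨e, he1, he2⟩ := Nat.chineseRemainder hlN 1 0
  have hDp : Function.Periodic (fun n => s (n + N) + s n) l := fun n => by
    simp only
    exact hD n
  have hmod : ∀ a b : ℕ, a ≡ b [MOD l] → a ≡ b [MOD N] → s a = s b := fun a b h1 h2 =>
    per_mod hs ((Nat.modEq_and_modEq_iff_modEq_mul hlN).1 ⟨h1, h2⟩)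
  refine ⟨fun n => s (e * n), fun n => ?_, fun n => ?_⟩
  · simp only
    refine hmod _ _ ?_ ?_
    · have h3 : e * (n + l) ≡ e * n [MOD l] := by
        refine Nat.ModEq.mul_left _ ?_
        exact Nat.add_modEq_right
      exact h3
    · have h3 : e * (n + l) ≡ 0 * (n + l) [MOD N] := he2.mul_right _
      have h4 : e * n ≡ 0 * n [MOD N] := he2.mul_right _
      rw [zero_mul] at h3 h4
      exact h3.trans h4.symm
  · simp only
    have h1 : s (e * (n + N)) = s (e * n + N) := by
      refine hmod _ _ ?_ ?_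
      · have h3 : e * (n + N) ≡ 1 * (n + N) [MOD l] := he1.mul_right _
        have h4 : e * n + N ≡ 1 * n + N [MOD l] := (he1.mul_right _).add_right _
        rw [one_mul] at h3 h4
        exact h3.trans h4.symm
      · have h3 : e * (n + N) ≡ 0 * (n + N) [MOD N] := he2.mul_right _
        have h4 : e * n + N ≡ 0 * n + 0 [MOD N] :=
          (he2.mul_right _).add (by exact (Nat.modEq_zero_iff_dvd.2 dvd_rfl))
        rw [zero_mul] at h3 h4
        exact h3.trans h4.symm
    rw [h1]
    have h2 : s (e * n + N) + s (e * n) = s (n + N) + s n := by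
      have h3 : e * n ≡ n [MOD l] := by
        have := he1.mul_right n
        rwa [one_mul] at this
      exact per_mod hDp h3
    have h4 : s (n + N) + s (e * n + N) + (s n + s (e * n)) = 0 := by
      calc s (n + N) + s (e * n + N) + (s n + s (e * n)) =
          (s (n + N) + s n) + (s (e * n + N) + s (e * n)) := by ring
        _ = 0 := by rw [h2]; exact add_self2 _
    exact eq_of_add2 h4

/-- a polynomial `(1 - X^P) gen` of degree less than `P` gives the period `P` -/
lemma per_of (A : Set ℕ) (P : ℕ) (K : Polynomial (ZMod 2)) (hK : K.natDegree < P)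
    (h : ((1 - Polynomial.X ^ P : Polynomial (ZMod 2)) : PowerSeries (ZMod 2)) * gen A = K) :
    Function.Periodic (fun n => (pA A n : ZMod 2)) P := by
  intro n
  have h1 := congrArg (PowerSeries.coeff (n + P)) h
  rw [Polynomial.coeff_coe, Polynomial.coeff_eq_zero_of_natDegree_lt (by omega)] at h1
  rw [Polynomial.coe_sub, Polynomial.coe_one, Polynomial.coe_pow, Polynomial.coe_X, sub_mul, one_mul,
    map_sub, PowerSeries.coeff_X_pow_mul', if_pos (by omega)] at h1
  unfold gen at h1
  simp only [PowerSeries.coeff_mk] at h1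
  rw [Nat.add_sub_cancel] at h1
  exact sub_eq_zero.1 h1

lemma prod_ne (B : Finset ℕ) (hB : ∀ b ∈ B, 0 < b) :
    (∏ a ∈ B, (1 - Polynomial.X ^ a) : Polynomial (ZMod 2)) ≠ 0 := by
  rw [prod_ne_zero_iff]
  intro b hb h
  have h1 := congrArg (Polynomial.coeff · 0) h
  simp only [Polynomial.coeff_sub, Polynomial.coeff_one_zero, Polynomial.coeff_X_pow,
    Polynomial.coeff_zero] at h1
  rw [if_neg (hB b hb).ne] at h1
  simp at h1

lemma deg_one_sub (N : ℕ) : (1 - Polynomial.X ^ N : Polynomial (ZMod 2)).natDegree ≤ N := by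
  refine (Polynomial.natDegree_sub_le _ _).trans ?_
  simp

lemma one_sub_ne {N : ℕ} (hN : 0 < N) : (1 - Polynomial.X ^ N : Polynomial (ZMod 2)) ≠ 0 := by
  have := prod_ne {N} (by simpa using hN)
  simpa using this

/-- roots of unity of order `l`: one of them is not a root of a nonzero polynomial of degree `< l - 1` -/
lemma exists_root (l : ℕ) (hl : l.Prime) (hl2 : l ≠ 2) (Q : Polynomial (ZMod 2)) (hQ : Q ≠ 0)
    (hd : Q.natDegree + 1 < l) : ∃ ζ : AlgebraicClosure (ZMod 2), ζ ^ l = 1 ∧ ζ ≠ 1 ∧
      Polynomial.aeval ζ Q ≠ 0 := by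
  haveI : NeZero (l : AlgebraicClosure (ZMod 2)) := by
    refine ⟨fun h => ?_⟩
    have h1 : (2 : ℕ) ∣ l := (CharP.cast_eq_zero_iff (AlgebraicClosure (ZMod 2)) 2 l).1 h
    exact hl2 (((Nat.prime_dvd_prime_iff_eq Nat.prime_two hl).1 h1).symm)
  obtain ⟨ζ, hζ⟩ := IsAlgClosed.exists_root (Polynomial.cyclotomic l (AlgebraicClosure (ZMod 2)))
    (by
      rw [Polynomial.degree_cyclotomic]
      have := Nat.totient_pos.2 hl.pos
      exact_mod_cast this.ne')
  rw [Polynomial.isRoot_cyclotomic_iff] at hζ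
  by_contra hcon
  push Not at hcon
  set Q' := Q.map (algebraMap (ZMod 2) (AlgebraicClosure (ZMod 2))) with hQ'
  have hQ'0 : Q' ≠ 0 :=
    (Polynomial.map_ne_zero_iff (algebraMap (ZMod 2) (AlgebraicClosure (ZMod 2))).injective).2 hQ
  have hsub : (Ico 1 l).image (fun j => ζ ^ j) ⊆ Q'.roots.toFinset := by
    intro x hx
    rw [mem_image] at hx
    obtain ⟨j, hj, rfl⟩ := hx
    rw [mem_Ico] at hj
    rw [Multiset.mem_toFinset, Polynomial.mem_roots hQ'0, Polynomial.IsRoot.def, hQ',
      Polynomial.eval_map_algebraMap]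
    refine hcon _ ?_ ?_
    · rw [← pow_mul, mul_comm, pow_mul, hζ.pow_eq_one, one_pow]
    · exact hζ.pow_ne_one_of_pos_of_lt (by omega) hj.2
  have h1 := card_le_card hsub
  rw [card_image_of_injOn, Nat.card_Ico] at h1
  · have h2 := Multiset.toFinset_card_le Q'.roots
    have h3 := Polynomial.card_roots' Q'
    have h4 : Q'.natDegree = Q.natDegree := Polynomial.natDegree_map _
    omega
  · intro i hi j hj hij
    rw [coe_Ico, Set.mem_Ico] at hi hj
    exact hζ.pow_inj hi.2 hj.2 hij

theorem t_DEC : S_DEC := by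
  intro A l M hA hlA hl hl2 hlone hM hlM
  haveI := Fact.mk Nat.prime_two
  set B := A.erase l with hB
  set L := M * ∏ a ∈ B, a with hL
  obtain ⟨c, hc⟩ : ∃ c : ℕ, A.card ≤ 2 ^ c := ⟨A.card, (Nat.lt_two_pow_self).le⟩
  set N := L * 2 ^ c with hN
  have hL0 : 0 < L := Nat.mul_pos hM (prod_pos fun a ha => hA a (mem_of_mem_erase ha))
  have hN0 : 0 < N := Nat.mul_pos hL0 (by positivity)
  have hlL : ¬ l ∣ L := by
    rw [hL, hl.dvd_mul, not_or, hl.prime.dvd_finsetProd_iff]
    refine ⟨hlM, ?_⟩
    rintro ⟨a, ha, hla⟩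
    exact hlone a (mem_of_mem_erase ha) (ne_of_mem_erase ha) hla
  have hlN : ¬ l ∣ N := by
    rw [hN, hl.dvd_mul, not_or]
    exact ⟨hlL, fun h => hl2 ((Nat.prime_dvd_prime_iff_eq hl Nat.prime_two).1 (hl.dvd_of_dvd_pow h))⟩
  have hcop : l.Coprime N := (Nat.Prime.coprime_iff_not_dvd hl).2 hlN
  have hBL : ∀ b ∈ B, b ∣ L := fun b hb => (dvd_prod_of_mem _ hb).mul_left _
  obtain ⟨K, hK⟩ := prod_dvd B L c hBL ((card_erase_le).trans hc)
  rw [← hN] at hK
  have hKdeg : K.natDegree ≤ N := by
    have h1 := congrArg Polynomial.natDegree hK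
    have hK0 : K ≠ 0 := by
      rintro rfl
      rw [mul_zero] at hK
      exact one_sub_ne hN0 hK
    rw [Polynomial.natDegree_mul (prod_ne B fun b hb => hA b (mem_of_mem_erase hb)) hK0] at h1
    have h2 := deg_one_sub N
    omega
  have hprodA : (∏ a ∈ A, (1 - Polynomial.X ^ a) : Polynomial (ZMod 2)) =
      (1 - Polynomial.X ^ l) * ∏ a ∈ B, (1 - Polynomial.X ^ a) := by
    rw [hB, mul_prod_erase A (fun a => (1 - Polynomial.X ^ a : Polynomial (ZMod 2))) hlA]
  have hgen := gen_mul A hA
  have hKgen : ((1 - Polynomial.X ^ l : Polynomial (ZMod 2)) : PowerSeries (ZMod 2)) *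
      (((1 - Polynomial.X ^ N : Polynomial (ZMod 2)) : PowerSeries (ZMod 2)) * gen (A : Set ℕ)) = K := by
    rw [hK, ← mul_assoc, ← Polynomial.coe_mul, ← mul_assoc, ← hprodA, Polynomial.coe_mul,
      mul_comm (_ : PowerSeries (ZMod 2)) (K : PowerSeries (ZMod 2)), mul_assoc, hgen, mul_one]
  have hD := diff_per (A : Set ℕ) l N K hKdeg hl.pos hKgen
  -- the period
  obtain ⟨K2, hK2⟩ := prod_dvd A (l * L) c (fun a ha => by
    by_cases h : a = l
    · rw [h]; exact dvd_mul_right _ _
    · exact (hBL a (mem_erase.2 ⟨h, ha⟩)).mul_left _) hc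
  have eN : l * L * 2 ^ c = l * N := by rw [hN]; ring
  rw [eN] at hK2
  have hper : Function.Periodic (fun n => (pA (A : Set ℕ) n : ZMod 2)) (l * N) := by
    refine per_of (A : Set ℕ) (l * N) K2 ?_ ?_
    · have h1 := congrArg Polynomial.natDegree hK2
      have hK0 : K2 ≠ 0 := by
        rintro rfl
        rw [mul_zero] at hK2
        exact one_sub_ne (Nat.mul_pos hl.pos hN0) hK2
      rw [hprodA, mul_assoc, Polynomial.natDegree_mul (one_sub_ne hl.pos) (mul_ne_zero
        (prod_ne B fun b hb => hA b (mem_of_mem_erase hb)) hK0), Polynomial.natDegree_mul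
        (prod_ne B fun b hb => hA b (mem_of_mem_erase hb)) hK0] at h1
      have h2 := deg_one_sub (l * N)
      have h3 : (1 - Polynomial.X ^ l : Polynomial (ZMod 2)).natDegree = l := by
        have h4 : (1 - Polynomial.X ^ l : Polynomial (ZMod 2)) = -(Polynomial.X ^ l - Polynomial.C 1) := by
          rw [map_one]; ring
        rw [h4, Polynomial.natDegree_neg, Polynomial.natDegree_X_pow_sub_C]
      have := hl.pos
      omega
    · rw [hK2, Polynomial.coe_mul, mul_comm (_ : PowerSeries (ZMod 2)) (K2 : PowerSeries (ZMod 2)),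
        mul_assoc, hgen, mul_one]
  obtain ⟨u, hu1, hu2⟩ := split_of (fun n => (pA (A : Set ℕ) n : ZMod 2)) l N hcop hper hD
  refine ⟨u, N, hN0, hlN, ?_, ?_, hu1, hu2, ?_⟩
  · rw [hN, hL]
    exact Dvd.dvd.mul_right (dvd_mul_right _ _) _
  · intro a ha hne
    rw [hN]
    exact (hBL a (mem_erase.2 ⟨hne, ha⟩)).mul_right _
  · intro k a hk ha0
    by_contra hcon
    push Not at hcon
    obtain ⟨i0, hi0⟩ := Function.ne_iff.1 ha0
    have hk0 : 0 < k := by
      have := i0.2
      omega
    -- the reversed polynomial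
    set Q : Polynomial (ZMod 2) := ∑ i : Fin k, Polynomial.C (a i) * Polynomial.X ^ (k - 1 - (i : ℕ))
      with hQ
    have hQ0 : Q ≠ 0 := by
      intro h
      have h1 := congrArg (Polynomial.coeff · (k - 1 - (i0 : ℕ))) h
      simp only [hQ, Polynomial.finsetSum_coeff, Polynomial.coeff_C_mul, Polynomial.coeff_X_pow,
        Polynomial.coeff_zero] at h1
      rw [sum_eq_single i0] at h1
      · rw [if_pos rfl, mul_one] at h1
        exact hi0 h1
      · intro i _ hi
        rw [if_neg, mul_zero]
        intro h2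
        apply hi
        ext
        have := i.2
        have := i0.2
        omega
      · intro h2; exact absurd (mem_univ _) h2
    have hQd : Q.natDegree ≤ k - 1 := by
      refine Polynomial.natDegree_sum_le_of_forall_le _ _ fun i _ => ?_
      refine (Polynomial.natDegree_C_mul_X_pow_le _ _).trans (by omega)
    obtain ⟨ζ, hζ1, hζ2, hζ3⟩ := exists_root l hl hl2 Q hQ0 (by omega)
    set G : PowerSeries (ZMod 2) := ((1 - Polynomial.X ^ N : Polynomial (ZMod 2)) :
      PowerSeries (ZMod 2)) * gen (A : Set ℕ) with hG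
    have hGc : ∀ n, PowerSeries.coeff (n + N) G =
        (pA (A : Set ℕ) (n + N) : ZMod 2) + (pA (A : Set ℕ) n : ZMod 2) := by
      intro n
      rw [hG, Polynomial.coe_sub, Polynomial.coe_one, Polynomial.coe_pow, Polynomial.coe_X, sub_mul,
        one_mul, map_sub, PowerSeries.coeff_X_pow_mul', if_pos (by omega)]
      unfold gen
      simp only [PowerSeries.coeff_mk]
      rw [Nat.add_sub_cancel, CharTwo.sub_eq_add]
    have hGu : ∀ n, PowerSeries.coeff (n + N) G = u (n + N) + u n := by
      intro n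
      rw [hGc]
      have h1 := hu2 n
      simp only at h1
      have h2 : ((pA (A : Set ℕ) (n + N) : ZMod 2) + (pA (A : Set ℕ) n : ZMod 2)) +
          (u (n + N) + u n) = 0 := by
        calc _ = ((pA (A : Set ℕ) (n + N) : ZMod 2) + u (n + N)) +
            ((pA (A : Set ℕ) n : ZMod 2) + u n) := by ring
          _ = 0 := by rw [h1]; exact add_self2 _
      exact eq_of_add2 h2
    have hzero : ∀ n, PowerSeries.coeff (n + N + (k - 1)) ((Q : PowerSeries (ZMod 2)) * G) = 0 := by
      intro n
      have e1 : (Q : PowerSeries (ZMod 2)) = ∑ i : Fin k, PowerSeries.C (a i) *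
          PowerSeries.X ^ (k - 1 - (i : ℕ)) := by
        rw [hQ, ← Polynomial.coeToPowerSeries.ringHom_apply, map_sum]
        refine sum_congr rfl fun i _ => ?_
        rw [Polynomial.coeToPowerSeries.ringHom_apply, Polynomial.coe_mul, Polynomial.coe_C,
          Polynomial.coe_pow, Polynomial.coe_X]
      rw [e1, sum_mul, map_sum]
      have e2 : ∀ i : Fin k, PowerSeries.coeff (n + N + (k - 1)) (PowerSeries.C (a i) *
          PowerSeries.X ^ (k - 1 - (i : ℕ)) * G) = a i * u (n + N + i) + a i * u (n + i) := by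
        intro i
        have := i.2
        rw [mul_assoc, PowerSeries.coeff_C_mul, PowerSeries.coeff_X_pow_mul', if_pos (by omega),
          show n + N + (k - 1) - (k - 1 - (i : ℕ)) = (n + i) + N by omega, hGu, mul_add,
          show n + ↑i + N = n + N + i by omega]
      rw [sum_congr rfl fun i _ => e2 i, sum_add_distrib, hcon (n + N) n]
      exact add_self2 _
    have hpoly : ∃ Bp : Polynomial (ZMod 2), (Bp : PowerSeries (ZMod 2)) =
        (Q : PowerSeries (ZMod 2)) * G := by
      refine ⟨PowerSeries.trunc (N + k) ((Q : PowerSeries (ZMod 2)) * G), ?_⟩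
      ext m
      rw [Polynomial.coeff_coe, PowerSeries.coeff_trunc]
      split_ifs with hm
      · rfl
      · have := hzero (m - N - (k - 1))
        rw [show m - N - (k - 1) + N + (k - 1) = m by omega] at this
        exact this.symm
    obtain ⟨Bp, hBp⟩ := hpoly
    have heq : (1 - Polynomial.X ^ l) * Bp = Q * K := by
      apply Polynomial.coe_injective
      rw [Polynomial.coe_mul, Polynomial.coe_mul, hBp, ← hKgen]
      ring
    have h1 := congrArg (Polynomial.aeval ζ) heq
    rw [map_mul, map_mul, map_sub, map_one, map_pow, Polynomial.aeval_X, hζ1, sub_self, zero_mul] at h1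
    have h2 : Polynomial.aeval ζ K = 0 := by
      rcases mul_eq_zero.1 h1.symm with h | h
      · exact absurd h hζ3
      · exact h
    have h3 := congrArg (Polynomial.aeval ζ) hK
    rw [map_mul, h2, mul_zero, map_sub, map_one, map_pow, Polynomial.aeval_X] at h3
    have h4 : ζ ^ N = 1 := (sub_eq_zero.1 h3).symm
    have h5 : orderOf ζ ∣ l := orderOf_dvd_of_pow_eq_one hζ1
    have h6 : orderOf ζ ∣ N := orderOf_dvd_of_pow_eq_one h4
    have h7 : orderOf ζ = 1 := Nat.eq_one_of_dvd_coprimes hcop h5 h6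
    exact hζ2 (orderOf_eq_one_iff.1 h7)

end Pool.Agent.D0H10.BP
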