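import Pool.Agent.D0H10.BP.Dec
import Pool.Agent.D0H70.BP.Exact

/-! # EXACT for all `m` (generalization of `Pool.Agent.D0H70.BP.Exact`) -/

set_option autoImplicit false

open scoped Classical

namespace Pool.Agent.D0H10.BP

open Finset Filter
open Pool.Agent.D0H10.PS
open Pool.Agent.D0H70.BP (vv TT ee ee_eq TT_succ TT_mono TT_double TT_pow prod_split)

open Polynomial in
/-- the polynomial identity -/
theorem poly2 (m B v : ℕ) (hm : 1 ≤ m) (hB : TT m = 2 ^ B + 1 + v) (hv : v < 2 ^ B) :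
    ∃ N : ℕ, 0 < N ∧ ∃ Q : (ZMod 2)[X],
      (∏ j ∈ Icc 1 m, (X ^ j - 1) : (ZMod 2)[X]) * Q = (X - 1) ^ (v + 1) * (X ^ (N * 2 ^ B) - 1) ∧
      Q.eval 1 ≠ 0 := by
  rw [prod_split]
  obtain ⟨D, hD⟩ : ∃ D, D = (Icc 1 m).filter (fun d => ¬ 2 ∣ d) := ⟨_, rfl⟩
  rw [← hD]
  have h1D : 1 ∈ D := by
    rw [hD, mem_filter, mem_Icc]; omega
  obtain ⟨N, hN⟩ : ∃ N, N = ∏ d ∈ D, d := ⟨_, rfl⟩
  have hD0 : ∀ d ∈ D, 0 < d := by
    intro d hd
    rw [hD, mem_filter, mem_Icc] at hd; omega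
  have hN0 : 0 < N := by rw [hN]; exact prod_pos hD0
  have hNodd : ¬ 2 ∣ N := by
    rw [hN, Nat.prime_two.prime.dvd_finsetProd_iff]
    rintro ⟨d, hd, h⟩
    rw [hD, mem_filter] at hd
    exact hd.2 h
  have hsub : D.erase 1 ⊆ N.divisors.erase 1 := by
    intro d hd
    rw [mem_erase] at hd ⊢
    refine ⟨hd.1, ?_⟩
    rw [Nat.mem_divisors]
    exact ⟨by rw [hN]; exact dvd_prod_of_mem _ hd.2, hN0.ne'⟩
  have he1 : ee m 1 = 2 ^ B + (v + 1) := by
    rw [ee_eq m 1 (by norm_num), Nat.div_one, hB]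
    ring
  have hed : ∀ d ∈ D.erase 1, ee m d ≤ 2 ^ B := by
    intro d hd
    rw [mem_erase] at hd
    have h3 := hd.2
    rw [hD, mem_filter, mem_Icc] at h3
    rw [ee_eq m d h3.2]
    have h4 : 3 ≤ d := by
      have := hd.1
      have h5 := h3.2
      have h6 := h3.1.1
      by_contra hc
      have : d = 2 := by omega
      exact h5 (by rw [this])
    have h5 : TT (m / d) ≤ TT (m / 3) := TT_mono (Nat.div_le_div_left h4 (by norm_num))
    have h6 : TT (2 * (m / 3)) ≤ TT m := TT_mono (by omega)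
    rw [TT_double] at h6
    omega
  obtain ⟨W, hW⟩ : ∃ W : (ZMod 2)[X], W = ∏ d ∈ D.erase 1, cyclotomic d (ZMod 2) ^ (ee m d) :=
    ⟨_, rfl⟩
  obtain ⟨R, hR⟩ : ∃ R : (ZMod 2)[X], R = ∑ i ∈ range N, X ^ i := ⟨_, rfl⟩
  have hWR : W ∣ R ^ (2 ^ B) := by
    rw [hW, hR, ← prod_cyclotomic_eq_geom_sum hN0, ← prod_pow]
    refine dvd_trans (prod_dvd_prod_of_dvd _ _ fun d hd => pow_dvd_pow _ (hed d hd)) ?_
    exact prod_dvd_prod_of_subset _ _ _ hsub
  obtain ⟨Q, hQ⟩ := hWR
  have hR1 : R.eval 1 = 1 := by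
    rw [hR, eval_finsetSum]
    simp only [eval_pow, eval_X, one_pow, sum_const, card_range, nsmul_eq_mul, mul_one]
    exact (ZMod.natCast_eq_one_iff_odd).mpr (by
      rw [← Nat.not_even_iff_odd, even_iff_two_dvd]; exact hNodd)
  refine ⟨N, hN0, Q, ?_, ?_⟩
  · rw [← mul_prod_erase D _ h1D, ← hW, he1, cyclotomic_one, mul_assoc, ← hQ]
    have h3 : (X ^ (N * 2 ^ B) - 1 : (ZMod 2)[X]) = (X ^ N - 1) ^ (2 ^ B) := by
      have : Fact (Nat.Prime 2) := ⟨Nat.prime_two⟩
      rw [sub_pow_char_pow (R := (ZMod 2)[X]) (p := 2), one_pow, ← pow_mul]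
    rw [h3, pow_add, mul_comm (_ ^ 2 ^ B) ((X - 1) ^ (v + 1)), mul_assoc, ← mul_pow, hR]
    congr 2
    rw [mul_comm]
    exact geom_sum_mul X N
  · intro h
    have h3 := congrArg (eval 1) hQ
    rw [eval_mul, h, mul_zero, eval_pow, hR1, one_pow] at h3
    exact one_ne_zero h3

/-- the linear combination of shifts with the coefficients of a polynomial -/
noncomputable def comb (c : ℕ → ℕ) (a : Polynomial (ZMod 2)) (n : ℕ) : ZMod 2 :=
  ∑ j ∈ range (a.natDegree + 1), a.coeff j * (c (n + a.natDegree - j) : ZMod 2)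

lemma comb_coeff (A : Set ℕ) (a : Polynomial (ZMod 2)) (n : ℕ) :
    comb (pA A) a n = PowerSeries.coeff (n + a.natDegree) ((a : PowerSeries (ZMod 2)) * gen A) := by
  rw [PowerSeries.coeff_mul, Finset.Nat.sum_antidiagonal_eq_sum_range_succ
    (fun i j => PowerSeries.coeff i (a : PowerSeries (ZMod 2)) * PowerSeries.coeff j (gen A))]
  unfold comb gen
  simp only [Polynomial.coeff_coe, PowerSeries.coeff_mk]
  have h1 : range (a.natDegree + 1) ⊆ range (n + a.natDegree).succ :=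
    range_subset_range.2 (by omega)
  refine sum_subset h1 fun j _ hj => ?_
  rw [mem_range, not_lt] at hj
  rw [Polynomial.coeff_eq_zero_of_natDegree_lt (by omega), zero_mul]

theorem t_EX2 (m B v : ℕ) (hm : 1 ≤ m) (hB : TT m = 2 ^ B + 1 + v) (hv : v < 2 ^ B) :
    ∃ h : ℕ, 0 < h ∧ 2 ^ B ∣ h ∧ ∀ a b : Polynomial (ZMod 2), a = (1 - Polynomial.X) ^ v * b →
      b.eval 1 = 1 → ∀ n, comb (pA (Set.Icc 1 m)) a (n + h) = comb (pA (Set.Icc 1 m)) a n + 1 := by
  obtain ⟨N, hN0, Q, hQ, hQ1⟩ := poly2 m B v hm hB hv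
  set h := N * 2 ^ B with hh
  have hh0 : 0 < h := by positivity
  refine ⟨h, hh0, dvd_mul_left _ _, fun a b hab hb n => ?_⟩
  have hneg : ∀ p : Polynomial (ZMod 2), -p = p := fun p => CharTwo.neg_eq p
  have hsw : ∀ k : ℕ, (Polynomial.X ^ k - 1 : Polynomial (ZMod 2)) = 1 - Polynomial.X ^ k := by
    intro k
    rw [← neg_sub, hneg]
  have hsw1 : (Polynomial.X - 1 : Polynomial (ZMod 2)) = 1 - Polynomial.X := by
    have := hsw 1
    rwa [pow_one] at this
  rw [prod_congr rfl fun j _ => hsw j, hsw, hsw1] at hQ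
  have hgen := gen_mul (Icc 1 m) fun a ha => (mem_Icc.1 ha).1
  rw [coe_Icc] at hgen
  set P : Polynomial (ZMod 2) := ∏ j ∈ Icc 1 m, (1 - Polynomial.X ^ j) with hP
  have hb0 : b ≠ 0 := by
    rintro rfl
    rw [Polynomial.eval_zero] at hb
    exact zero_ne_one hb
  have hQ0 : Q ≠ 0 := by
    rintro rfl
    rw [Polynomial.eval_zero] at hQ1
    exact hQ1 rfl
  have hP0 : P ≠ 0 := prod_ne _ fun a ha => (mem_Icc.1 ha).1
  have hX1 : (1 - Polynomial.X : Polynomial (ZMod 2)) ≠ 0 := by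
    have := one_sub_ne (N := 1) one_pos
    rwa [pow_one] at this
  have hdX1 : (1 - Polynomial.X : Polynomial (ZMod 2)).natDegree = 1 := by
    rw [← hsw1, ← Polynomial.C_1]; exact Polynomial.natDegree_X_sub_C 1
  have hdXh : (1 - Polynomial.X ^ h : Polynomial (ZMod 2)).natDegree = h := by
    rw [← hsw, ← Polynomial.C_1]; exact Polynomial.natDegree_X_pow_sub_C
  have hdeg1 : P.natDegree + Q.natDegree = v + 1 + h := by
    rw [← Polynomial.natDegree_mul hP0 hQ0, hQ, Polynomial.natDegree_mul (pow_ne_zero _ hX1)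
      (one_sub_ne hh0), Polynomial.natDegree_pow, hdX1, hdXh, mul_one]
  have hdeg2 : a.natDegree = v + b.natDegree := by
    rw [hab, Polynomial.natDegree_mul (pow_ne_zero _ hX1) hb0, Polynomial.natDegree_pow, hdX1, mul_one]
  have hPdeg : 1 ≤ P.natDegree := by
    have h8 : (1 - Polynomial.X ^ 1 : Polynomial (ZMod 2)) ∣ P :=
      dvd_prod_of_mem (fun j : ℕ => (1 - Polynomial.X ^ j : Polynomial (ZMod 2)))
        (mem_Icc.mpr ⟨le_rfl, hm⟩)
    rw [pow_one] at h8
    have h9 := Polynomial.natDegree_le_of_dvd h8 hP0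
    omega
  -- the power series
  obtain ⟨T, hT⟩ : ∃ T : PowerSeries (ZMod 2), T =
      (1 - PowerSeries.X ^ h) * ((a : PowerSeries (ZMod 2)) * gen (Set.Icc 1 m)) := ⟨_, rfl⟩
  have hQp : (1 - PowerSeries.X) * T = ((Q * b : Polynomial (ZMod 2)) : PowerSeries (ZMod 2)) := by
    have h5 := congrArg (fun p : Polynomial (ZMod 2) => (p : PowerSeries (ZMod 2))) hQ
    simp only [Polynomial.coe_mul, Polynomial.coe_sub, Polynomial.coe_one, Polynomial.coe_X,
      Polynomial.coe_pow] at h5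
    rw [hT, hab, Polynomial.coe_mul, Polynomial.coe_mul, Polynomial.coe_pow, Polynomial.coe_sub,
      Polynomial.coe_one, Polynomial.coe_X]
    calc (1 - PowerSeries.X) * ((1 - PowerSeries.X ^ h) * ((1 - PowerSeries.X) ^ v *
          (b : PowerSeries (ZMod 2)) * gen (Set.Icc 1 m))) =
          ((1 - PowerSeries.X) ^ (v + 1) * (1 - PowerSeries.X ^ h)) *
            ((b : PowerSeries (ZMod 2)) * gen (Set.Icc 1 m)) := by ring
      _ = ((P : PowerSeries (ZMod 2)) * (Q : PowerSeries (ZMod 2))) *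
            ((b : PowerSeries (ZMod 2)) * gen (Set.Icc 1 m)) := by rw [h5]
      _ = ((Q : PowerSeries (ZMod 2)) * (b : PowerSeries (ZMod 2))) *
            ((P : PowerSeries (ZMod 2)) * gen (Set.Icc 1 m)) := by ring
      _ = _ := by rw [hgen, mul_one]
  have hcoef : ∀ n, PowerSeries.coeff n T = ∑ i ∈ range (n + 1), (Q * b).coeff i := by
    intro n
    induction n with
    | zero =>
      have h5 := congrArg (PowerSeries.coeff 0) hQp
      rw [sub_mul, one_mul, map_sub, PowerSeries.coeff_zero_X_mul, sub_zero,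
        Polynomial.coeff_coe] at h5
      rw [h5]; simp
    | succ n ih =>
      have h5 := congrArg (PowerSeries.coeff (n + 1)) hQp
      rw [sub_mul, one_mul, map_sub, PowerSeries.coeff_succ_X_mul, Polynomial.coeff_coe] at h5
      rw [sum_range_succ, ← ih, ← h5]; ring
  have hQbdeg : (Q * b).natDegree ≤ h + a.natDegree := by
    rw [Polynomial.natDegree_mul hQ0 hb0]
    omega
  have h5 := hcoef (n + h + a.natDegree)
  have h6 : ∑ i ∈ range (n + h + a.natDegree + 1), (Q * b).coeff i = (Q * b).eval 1 := by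
    rw [Polynomial.eval_eq_sum_range' (n := n + h + a.natDegree + 1) (by omega)]
    simp
  have h7 : (Q * b).eval 1 = 1 := by
    rw [Polynomial.eval_mul, hb, mul_one]
    exact (zmod2 _).resolve_left hQ1
  rw [h6, h7, hT, sub_mul, one_mul, map_sub, PowerSeries.coeff_X_pow_mul', if_pos (by omega),
    show n + h + a.natDegree - h = n + a.natDegree by omega, ← comb_coeff, ← comb_coeff] at h5
  rw [← h5]; ring

end Pool.Agent.D0H10.BP
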