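import Pool.Agent.D0H10.BP.Stu
import Pool.Agent.D0H10.PS.Fin
import Pool.Agent.D0H12.BP.Mean
import Pool.Agent.D0H12.BP.Prod
import Pool.Agent.D0H70.BP.Star

/-! # Assembly of project BP -/

set_option autoImplicit false

open scoped Classical

namespace Pool.Agent.D0H10.BP

open Finset Filter
open Pool.Agent.D0H10.PS

/-- a nonconstant sequence of period `l` has a bias of at most `1 - 2 / l` -/
lemma bias_le {u : ℕ → ZMod 2} {l : ℕ} (hu : Function.Periodic u l) (hl : 0 < l)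
    (hne : ∃ n n' : ℕ, u n ≠ u n') : |∑ x ∈ range l, sg (u x)| / l ≤ 1 - 2 / l := by
  obtain ⟨n, n', hnn⟩ := hne
  have hl' : (0 : ℝ) < l := by exact_mod_cast hl
  obtain ⟨x, hx, hx1⟩ : ∃ x ∈ range l, u x = 0 := by
    rcases zmod2 (u n) with h | h
    · exact ⟨n % l, mem_range.2 (Nat.mod_lt _ hl), by rw [hu.map_mod_nat]; exact h⟩
    · rcases zmod2 (u n') with h' | h'
      · exact ⟨n' % l, mem_range.2 (Nat.mod_lt _ hl), by rw [hu.map_mod_nat]; exact h'⟩
      · exact absurd (h.trans h'.symm) hnn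
  obtain ⟨y, hy, hy1⟩ : ∃ y ∈ range l, u y = 1 := by
    rcases zmod2 (u n) with h | h
    · rcases zmod2 (u n') with h' | h'
      · exact absurd (h.trans h'.symm) hnn
      · exact ⟨n' % l, mem_range.2 (Nat.mod_lt _ hl), by rw [hu.map_mod_nat]; exact h'⟩
    · exact ⟨n % l, mem_range.2 (Nat.mod_lt _ hl), by rw [hu.map_mod_nat]; exact h⟩
  have hxy : x ≠ y := by
    rintro rfl
    rw [hx1] at hy1
    exact absurd hy1 (by decide)
  have hy2 : y ∈ (range l).erase x := mem_erase.2 ⟨hxy.symm, hy⟩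
  have h1 : ∑ x ∈ range l, sg (u x) = ∑ z ∈ ((range l).erase x).erase y, sg (u z) := by
    rw [← add_sum_erase _ _ hx, ← add_sum_erase _ _ hy2, hx1, hy1, sg_zero, sg_one]
    ring
  have h2 : |∑ z ∈ ((range l).erase x).erase y, sg (u z)| ≤ (l : ℝ) - 2 := by
    calc |∑ z ∈ ((range l).erase x).erase y, sg (u z)| ≤
          ∑ z ∈ ((range l).erase x).erase y, |sg (u z)| := abs_sum_le_sum_abs _ _
      _ = (((range l).erase x).erase y).card := by
        rw [sum_congr rfl fun z _ => abs_sg (u z), sum_const, nsmul_eq_mul, mul_one]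
      _ = (l : ℝ) - 2 := by
        rw [card_erase_of_mem hy2, card_erase_of_mem hx, card_range]
        have hl2 : 2 ≤ l := by
          have h3 := mem_range.1 hx
          have h4 := mem_range.1 hy
          omega
        rw [show l - 1 - 1 = l - 2 by omega, Nat.cast_sub hl2]
        norm_num
  rw [h1, div_le_iff₀ hl']
  calc |∑ z ∈ ((range l).erase x).erase y, sg (u z)| ≤ (l : ℝ) - 2 := h2
    _ = (1 - 2 / l) * l := by field_simp

/-- the indicator of a residue class -/
noncomputable def cls (M r : ℕ) : ℕ → ℝ := fun n => if n ≡ r [MOD M] then 1 else 0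

lemma cls_abs (M r n : ℕ) : |cls M r n| ≤ 1 := by
  unfold cls
  split_ifs <;> simp

lemma cls_per (M r N : ℕ) (h : M ∣ N) : Function.Periodic (cls M r) N := by
  intro n
  unfold cls
  have h1 : n + N ≡ n [MOD M] := by
    obtain ⟨k, rfl⟩ := h
    exact (Nat.modEq_iff_dvd' (by omega)).2 (by
      rw [Nat.add_sub_cancel_left]; exact dvd_mul_right _ _) |>.symm
  by_cases h2 : n ≡ r [MOD M]
  · rw [if_pos h2, if_pos (h1.trans h2)]
  · rw [if_neg h2, if_neg (fun h3 => h2 (h1.symm.trans h3))]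

/-- **The means of the linear patterns.** -/
theorem mean_pattern (A : Finset ℕ) (hA : ∀ a ∈ A, 0 < a) (𝓛 : Finset ℕ) (M r k : ℕ)
    (a : Fin k → ZMod 2) (ha : a ≠ 0) (hM : 0 < M) (hne : 𝓛.Nonempty)
    (h𝓛 : ∀ l ∈ 𝓛, l.Prime ∧ l ≠ 2 ∧ l ∈ A ∧ (∀ b ∈ A, b ≠ l → ¬ l ∣ b) ∧ ¬ l ∣ M ∧ k < l) :
    ∃ μ : ℝ, HasMean (fun n => cls M r n * sg (∑ i : Fin k, a i * (pA (A : Set ℕ) (n + i) : ZMod 2))) μ ∧
      |μ| ≤ ∏ l ∈ 𝓛, (1 - 2 / (l : ℝ)) := by
  have hdec : ∀ l : ℕ, l ∈ 𝓛 → ∃ (u : ℕ → ZMod 2) (N : ℕ), 0 < N ∧ ¬ l ∣ N ∧ M ∣ N ∧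
      (∀ b ∈ A, b ≠ l → b ∣ N) ∧ Function.Periodic u l ∧
      Function.Periodic (fun n => (pA (A : Set ℕ) n : ZMod 2) + u n) N ∧
      ∀ (L : ℕ) (a : Fin L → ZMod 2), L < l → a ≠ 0 →
        ∃ n n' : ℕ, ∑ i : Fin L, a i * u (n + i) ≠ ∑ i : Fin L, a i * u (n' + i) := fun l hl =>
    t_DEC A l M hA (h𝓛 l hl).2.2.1 (h𝓛 l hl).1 (h𝓛 l hl).2.1 (h𝓛 l hl).2.2.2.1 hM
      (h𝓛 l hl).2.2.2.2.1
  choose! u N h1 h2 h3 h4 h5 h6 h7 using hdec
  set U : ℕ → ℕ → ZMod 2 := fun l n => ∑ i : Fin k, a i * u l (n + i) with hU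
  set S : ℕ → ZMod 2 := fun n => ∑ i : Fin k, a i * (pA (A : Set ℕ) (n + i) : ZMod 2) with hS
  have hUp : ∀ l ∈ 𝓛, Function.Periodic (U l) l := by
    intro l hl n
    simp only [hU]
    refine sum_congr rfl fun i _ => ?_
    rw [show n + l + (i : ℕ) = n + i + l by ring, h5 l hl]
  have hSU : ∀ l ∈ 𝓛, Function.Periodic (fun n => S n + U l n) (N l) := by
    intro l hl n
    simp only [hU, hS]
    rw [← sum_add_distrib, ← sum_add_distrib]
    refine sum_congr rfl fun i _ => ?_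
    rw [← mul_add, ← mul_add, show n + N l + (i : ℕ) = n + i + N l by ring]
    congr 1
    exact h6 l hl (n + i)
  obtain ⟨l0, hl0⟩ := hne
  have hSp : Function.Periodic S (l0 * N l0) := by
    intro n
    have e1 : Function.Periodic (U l0) (l0 * N l0) := by
      intro m
      have := (hUp l0 hl0).nat_mul (N l0) m
      rw [Nat.cast_id] at this
      rw [mul_comm l0]
      exact this
    have e2 : Function.Periodic (fun n => S n + U l0 n) (l0 * N l0) := by
      intro m
      have := (hSU l0 hl0).nat_mul l0 m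
      rw [Nat.cast_id] at this
      exact this
    have e3 := e2 n
    simp only at e3
    rw [e1 n] at e3
    exact add_right_cancel e3
  obtain ⟨μ, hμ1, hμ2⟩ := Pool.Agent.D0H12.BP.t_PROD Pool.Agent.D0H12.BP.t_MEAN 𝓛 (cls M r) S U N
    (cls_abs M r) (fun l hl => ⟨(h𝓛 l hl).1, h1 l hl, h2 l hl, cls_per M r _ (h3 l hl), hUp l hl,
      hSU l hl, fun l' hl' hne' => h4 l hl l' (h𝓛 l' hl').2.2.1 hne'⟩)
    ⟨l0 * N l0, Nat.mul_pos (h𝓛 l0 hl0).1.pos (h1 l0 hl0),
      cls_per M r _ ((h3 l0 hl0).mul_left _), hSp⟩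
  refine ⟨μ, hμ1, hμ2.trans (prod_le_prod (fun l _ => by positivity) fun l hl => ?_)⟩
  exact bias_le (hUp l hl) (h𝓛 l hl).1.pos (h7 l hl k a (h𝓛 l hl).2.2.2.2.2 ha)

/-- the set of the `n` in a residue class at which the parities of `c (n + i)`, `i < k`, are `e i` -/
def patternSet (c : ℕ → ℕ) {k : ℕ} (e : Fin k → ZMod 2) (M r : ℕ) : Set ℕ :=
  {n | n ≡ r [MOD M] ∧ ∀ i : Fin k, (c (n + i) : ZMod 2) = e i}

/-- the set `S` of natural numbers has the natural density `δ` -/
def HasDensity (S : Set ℕ) (δ : ℝ) : Prop :=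
  Tendsto (fun N : ℕ => (((range N).filter (· ∈ S)).card : ℝ) / (N : ℝ)) atTop (nhds δ)

/-- the mean of the residue class -/
lemma mean_cls (M r : ℕ) (hM : 0 < M) : HasMean (cls M r) (1 / M) := by
  refine (class_density M r hM).congr fun N => ?_
  congr 1
  rw [card_filter]
  push_cast
  rfl

/-- patterns from the means of the characters -/
lemma density_pattern (c : ℕ → ℕ) (k M r : ℕ) (hM : 0 < M) (δ : ℝ)
    (h : ∀ s : Fin k → ZMod 2, s ≠ 0 → ∃ μ : ℝ,
      HasMean (fun n => cls M r n * sg (∑ i : Fin k, s i * (c (n + i) : ZMod 2))) μ ∧ |μ| ≤ δ)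
    (hδ : 0 ≤ δ) (e : Fin k → ZMod 2) :
    ∃ D : ℝ, HasDensity (patternSet c e M r) D ∧ |D - 1 / (M * 2 ^ k)| ≤ δ := by
  have h' : ∀ s : Fin k → ZMod 2, ∃ μ : ℝ,
      HasMean (fun n => cls M r n * sg (∑ i : Fin k, s i * (c (n + i) : ZMod 2))) μ ∧
        |μ - if s = 0 then 1 / (M : ℝ) else 0| ≤ δ := by
    intro s
    by_cases hs : s = 0
    · refine ⟨1 / M, ?_, by rw [if_pos hs, sub_self, abs_zero]; exact hδ⟩
      have e1 : (fun n => cls M r n * sg (∑ i : Fin k, s i * (c (n + i) : ZMod 2))) = cls M r := by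
        funext n
        rw [hs]
        simp [sg_zero]
      rw [e1]
      exact mean_cls M r hM
    · obtain ⟨μ, h1, h2⟩ := h s hs
      exact ⟨μ, h1, by rw [if_neg hs, sub_zero]; exact h2⟩
  choose μ hμ1 hμ2 using h'
  refine ⟨∑ s : Fin k → ZMod 2, sg (∑ i, s i * e i) / 2 ^ k * μ s, ?_, ?_⟩
  · have e1 : ∀ N : ℕ, (((range N).filter (· ∈ patternSet c e M r)).card : ℝ) / (N : ℝ) =
        ∑ s : Fin k → ZMod 2, sg (∑ i, s i * e i) / 2 ^ k * ((∑ n ∈ range N,
          cls M r n * sg (∑ i : Fin k, s i * (c (n + i) : ZMod 2))) / (N : ℝ)) := by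
      intro N
      rw [card_filter]
      push_cast
      have e2 : ∀ n, (if n ∈ patternSet c e M r then (1 : ℝ) else 0) =
          ∑ s : Fin k → ZMod 2, sg (∑ i, s i * e i) / 2 ^ k *
            (cls M r n * sg (∑ i : Fin k, s i * (c (n + i) : ZMod 2))) := by
        intro n
        have := pattern (fun i : Fin k => (c (n + i) : ZMod 2)) e
        unfold cls
        by_cases h1 : n ≡ r [MOD M]
        · have h2 : n ∈ patternSet c e M r ↔ ∀ i : Fin k, (c (n + i) : ZMod 2) = e i :=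
            ⟨fun h => h.2, fun h => ⟨h1, h⟩⟩
          simp only [h1, h2, if_true, one_mul]
          rw [this]
          exact sum_congr rfl fun s _ => by ring
        · have h2 : n ∉ patternSet c e M r := fun h => h1 h.1
          rw [if_neg h2, if_neg h1]
          simp
      rw [sum_congr rfl fun n _ => e2 n, sum_comm, sum_div]
      refine sum_congr rfl fun s _ => ?_
      rw [← mul_sum, mul_div_assoc]
    unfold HasDensity
    refine Tendsto.congr (fun N => (e1 N).symm) ?_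
    exact tendsto_finsetSum _ fun s _ => (hμ1 s).const_mul _
  · have e3 : ∑ s : Fin k → ZMod 2, sg (∑ i, s i * e i) / 2 ^ k *
        (if s = 0 then 1 / (M : ℝ) else 0) = 1 / (M * 2 ^ k) := by
      simp only [mul_ite, mul_zero]
      rw [sum_ite_eq' univ (0 : Fin k → ZMod 2), if_pos (mem_univ _)]
      simp only [Pi.zero_apply, zero_mul, sum_const_zero, sg_zero]
      have : (0 : ℝ) < M := by exact_mod_cast hM
      field_simp
    rw [← e3, ← sum_sub_distrib]
    calc |∑ s : Fin k → ZMod 2, (sg (∑ i, s i * e i) / 2 ^ k * μ s -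
          sg (∑ i, s i * e i) / 2 ^ k * (if s = 0 then 1 / (M : ℝ) else 0))| ≤
          ∑ s : Fin k → ZMod 2, |sg (∑ i, s i * e i) / 2 ^ k * μ s -
          sg (∑ i, s i * e i) / 2 ^ k * (if s = 0 then 1 / (M : ℝ) else 0)| :=
          abs_sum_le_sum_abs _ _
      _ ≤ ∑ _s : Fin k → ZMod 2, δ / 2 ^ k := by
          refine sum_le_sum fun s _ => ?_
          rw [← mul_sub, abs_mul, abs_div, abs_sg, abs_of_pos (by positivity : (0 : ℝ) < 2 ^ k)]
          calc 1 / 2 ^ k * |μ s - if s = 0 then 1 / (M : ℝ) else 0| ≤ 1 / 2 ^ k * δ := by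
                gcongr
                exact hμ2 s
            _ = δ / 2 ^ k := by ring
      _ = δ := by
          rw [sum_const, card_univ, Fintype.card_fun, ZMod.card, Fintype.card_fin, nsmul_eq_mul]
          push_cast
          field_simp

/-- `p` is a prime element of `A` and divides no other positive element of `A` -/
def Lonely (A : Set ℕ) (p : ℕ) : Prop := p.Prime ∧ p ∈ A ∧ ∀ a ∈ A, 0 < a → a ≠ p → ¬ p ∣ a

/-- products over many lonely primes are small -/
lemma small_prod (Q : Set ℕ) (hQ : ¬ Summable (Set.indicator Q fun p : ℕ => 1 / (p : ℝ))) (B : ℕ)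
    (ε : ℝ) (hε : 0 < ε) : ∃ 𝓛 : Finset ℕ, 𝓛.Nonempty ∧ (∀ l ∈ 𝓛, l ∈ Q ∧ B < l) ∧
      ∏ l ∈ 𝓛, (1 - 2 / (l : ℝ)) < ε := by
  have hpos : ∀ p, 0 ≤ Set.indicator Q (fun p : ℕ => 1 / (p : ℝ)) p := fun p =>
    Set.indicator_nonneg (fun _ _ => by positivity) p
  obtain ⟨S, hS⟩ : ∃ S : Finset ℕ, (B : ℝ) + 3 + (|Real.log ε| + 1) <
      ∑ p ∈ S, Set.indicator Q (fun p : ℕ => 1 / (p : ℝ)) p := by
    by_contra hcon
    push Not at hcon
    exact hQ (summable_of_sum_le hpos hcon)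
  set T := S.filter (fun p => p ∈ Q ∧ B + 2 < p) with hT
  have hsum : |Real.log ε| + 1 < ∑ p ∈ T, 1 / (p : ℝ) := by
    have h1 : ∑ p ∈ S, Set.indicator Q (fun p : ℕ => 1 / (p : ℝ)) p ≤
        ∑ p ∈ T, 1 / (p : ℝ) + ∑ _p ∈ range (B + 3), (1 : ℝ) := by
      have h2 : ∀ p ∈ S, Set.indicator Q (fun p : ℕ => 1 / (p : ℝ)) p ≤
          (if p ∈ Q ∧ B + 2 < p then 1 / (p : ℝ) else 0) + (if p < B + 3 then 1 else 0) := by
        intro p _
        by_cases hp : p ∈ Q
        · rw [Set.indicator_of_mem hp]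
          by_cases h3 : B + 2 < p
          · rw [if_pos ⟨hp, h3⟩, if_neg (by omega), add_zero]
          · rw [if_neg (fun h => h3 h.2), if_pos (by omega), zero_add]
            rcases Nat.eq_zero_or_pos p with h4 | h4
            · rw [h4]; simp
            · have : (1 : ℝ) ≤ p := by exact_mod_cast h4
              rw [div_le_one (by linarith)]
              exact this
        · rw [Set.indicator_of_notMem hp]
          split_ifs <;> positivity
      calc ∑ p ∈ S, Set.indicator Q (fun p : ℕ => 1 / (p : ℝ)) p ≤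
            ∑ p ∈ S, ((if p ∈ Q ∧ B + 2 < p then 1 / (p : ℝ) else 0) +
              (if p < B + 3 then 1 else 0)) := sum_le_sum h2
        _ = ∑ p ∈ T, 1 / (p : ℝ) + ∑ p ∈ S, (if p < B + 3 then (1 : ℝ) else 0) := by
            rw [sum_add_distrib, hT, sum_filter]
        _ ≤ _ := by
            gcongr
            rw [← sum_filter]
            refine sum_le_sum_of_subset_of_nonneg (fun p hp => ?_) fun _ _ _ => zero_le_one
            rw [mem_filter] at hp
            exact mem_range.2 hp.2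
    rw [sum_const, card_range, nsmul_eq_mul, mul_one] at h1
    push_cast at h1
    linarith
  have hne : T.Nonempty := by
    rw [nonempty_iff_ne_empty]
    intro h
    rw [h, sum_empty] at hsum
    have := abs_nonneg (Real.log ε)
    linarith
  have hTm : ∀ l ∈ T, l ∈ Q ∧ B < l ∧ 2 < l := by
    intro l hl
    rw [hT, mem_filter] at hl
    exact ⟨hl.2.1, by omega, by omega⟩
  refine ⟨T, hne, fun l hl => ⟨(hTm l hl).1, (hTm l hl).2.1⟩, ?_⟩
  calc ∏ l ∈ T, (1 - 2 / (l : ℝ)) ≤ ∏ l ∈ T, Real.exp (-(2 * (1 / (l : ℝ)))) := by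
        refine prod_le_prod (fun l hl => ?_) fun l _ => ?_
        · have h2 : (2 : ℝ) < l := by exact_mod_cast (hTm l hl).2.2
          rw [sub_nonneg, div_le_one (by linarith)]
          exact h2.le
        · have := Real.add_one_le_exp (-(2 * (1 / (l : ℝ))))
          have e : 2 / (l : ℝ) = 2 * (1 / (l : ℝ)) := by ring
          rw [e]
          linarith
    _ = Real.exp (-(2 * ∑ l ∈ T, 1 / (l : ℝ))) := by
        rw [← Real.exp_sum, sum_neg_distrib, mul_sum]
    _ < Real.exp (Real.log ε) := by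
        rw [Real.exp_lt_exp]
        have h1 := neg_abs_le (Real.log ε)
        have h2 := abs_nonneg (Real.log ε)
        linarith
    _ = ε := Real.exp_log hε

end Pool.Agent.D0H10.BP
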