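import Pool.Agent.D0H10.PS.Part

/-!
# Parity of the number of partitions into parts from a finite set: statements of the modules (project BP)

For a finite set `A` of positive integers let `s n` be the parity of the number `pA A n` of the partitions
of `n` with all parts in `A`. If a prime `l` belongs to `A` and divides no other element of `A`, then
`s = u + r` with `u` of period `l` and `r` of a period prime to `l` (DEC); for several such primes the means
are multiplied (PROD). For `A = {1, ..., l + 1}`, `u` is the parity of `n` modulo `l` (STAR).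
-/

set_option autoImplicit false

open scoped Classical

namespace Pool.Agent.D0H10.BP

open Finset Filter
open Pool.Agent.D0H10.PS

/-- the mean of a function -/
def HasMean (f : ℕ → ℝ) (μ : ℝ) : Prop :=
  Tendsto (fun N : ℕ => (∑ n ∈ range N, f n) / (N : ℝ)) atTop (nhds μ)

/-- **MEAN.** The mean of a periodic function; products of two periodic functions with coprime periods. -/
def S_MEAN : Prop :=
  (∀ (f : ℕ → ℝ) (p : ℕ), 0 < p → Function.Periodic f p → HasMean f ((∑ n ∈ range p, f n) / p)) ∧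
  ∀ (f g : ℕ → ℝ) (p q : ℕ), 0 < p → 0 < q → p.Coprime q → Function.Periodic f p →
    Function.Periodic g q →
    ∑ n ∈ range (p * q), f n * g n = (∑ x ∈ range p, f x) * ∑ y ∈ range q, g y

/-- **PROD.** Several primes (induction on `𝓛`: `s = u l + s'`, `s'` of period `N l`; from MEAN). -/
def S_PROD : Prop := ∀ (𝓛 : Finset ℕ) (g : ℕ → ℝ) (s : ℕ → ZMod 2) (u : ℕ → ℕ → ZMod 2) (N : ℕ → ℕ),
    (∀ n, |g n| ≤ 1) →
    (∀ l ∈ 𝓛, l.Prime ∧ 0 < N l ∧ ¬ l ∣ N l ∧ Function.Periodic g (N l) ∧ Function.Periodic (u l) l ∧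
      Function.Periodic (fun n => s n + u l n) (N l) ∧ ∀ l' ∈ 𝓛, l' ≠ l → l' ∣ N l) →
    (∃ P : ℕ, 0 < P ∧ Function.Periodic g P ∧ Function.Periodic s P) →
    ∃ μ : ℝ, HasMean (fun n => g n * sg (s n)) μ ∧ |μ| ≤ ∏ l ∈ 𝓛, |∑ x ∈ range l, sg (u l x)| / l

/-- **STAR.** At an `l`-th root of unity `ζ ≠ 1` the product over `0 < j < l` is `l = 1` (use the algebraic
closure of `ZMod 2`, or the cyclotomic polynomial over `ℤ`). -/
def S_STAR : Prop := ∀ l : ℕ, l.Prime → l ≠ 2 →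
    (Polynomial.X ^ l - 1 : Polynomial (ZMod 2)) ∣
      (1 - Polynomial.X) * (∏ j ∈ Ico 1 l, (1 - Polynomial.X ^ j) - 1)

/-- **EXACT.** `m = 2^(2^r - 2) + 1`, for instance 5, 65, 16385: the multiplicity of the root 1 of
`∏_{j ≤ m} (1 - X^j)` is `2^b + 1`, `b = 2^r + r - 3`; those of the other roots are at most `2^b`. So
`∏_{j ≤ m} (1 - X^j)` divides `(1 - X) (1 - X^h)`, `h = 2^b * (odd)`, exactly at 1, and therefore
`s (n + h) = s n + 1`. -/
def S_EXACT : Prop := ∀ r : ℕ, 2 ≤ r → ∃ h : ℕ, 0 < h ∧ ∀ n : ℕ,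
    ((pA (Set.Icc 1 (2 ^ (2 ^ r - 2) + 1)) (n + h) : ℕ) : ZMod 2) =
      ((pA (Set.Icc 1 (2 ^ (2 ^ r - 2) + 1)) n : ℕ) : ZMod 2) + 1

/-- **DEC.** `s = u + r`. -/
def S_DEC : Prop := ∀ (A : Finset ℕ) (l M : ℕ), (∀ a ∈ A, 0 < a) → l ∈ A → l.Prime → l ≠ 2 →
    (∀ a ∈ A, a ≠ l → ¬ l ∣ a) → 0 < M → ¬ l ∣ M →
    ∃ (u : ℕ → ZMod 2) (N : ℕ), 0 < N ∧ ¬ l ∣ N ∧ M ∣ N ∧ (∀ a ∈ A, a ≠ l → a ∣ N) ∧
      Function.Periodic u l ∧ Function.Periodic (fun n => (pA (A : Set ℕ) n : ZMod 2) + u n) N ∧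
      ∀ (L : ℕ) (a : Fin L → ZMod 2), L < l → a ≠ 0 →
        ∃ n n' : ℕ, ∑ i : Fin L, a i * u (n + i) ≠ ∑ i : Fin L, a i * u (n' + i)

end Pool.Agent.D0H10.BP
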