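import Pool.Agent.D0H10.BP.Dec

/-! # The component at `l` of the partitions into parts `≤ l + 1` -/

set_option autoImplicit false

open scoped Classical

namespace Pool.Agent.D0H10.BP

open Finset Filter
open Pool.Agent.D0H10.PS

/-- the parity of the residue -/
def par (l n : ℕ) : ZMod 2 := ((n % l : ℕ) : ZMod 2)

lemma par_per (l : ℕ) : Function.Periodic (par l) l := fun n => by
  unfold par; rw [Nat.add_mod_right]

lemma odd_cast {m : ℕ} (h : Odd m) : (m : ZMod 2) = 1 := by
  obtain ⟨k, rfl⟩ := h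
  push_cast
  rw [show (2 : ZMod 2) = 0 from by decide]
  ring

lemma par_step {l : ℕ} (hl : Odd l) (n : ℕ) :
    par l (n + 1) + par l n = 1 + if l ∣ n + 1 then 1 else 0 := by
  have hl0 : 0 < l := hl.pos
  unfold par
  by_cases h : l ∣ n + 1
  · rw [if_pos h, Nat.mod_eq_zero_of_dvd h]
    have h1 : n % l = l - 1 := by
      have h2 := Nat.mod_lt n hl0
      obtain ⟨k, hk⟩ := h
      have hk0 : 0 < k := by
        rcases Nat.eq_zero_or_pos k with h | h
        · rw [h] at hk; simp at hk
        · exact h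
      have h3 : n = (l - 1) + l * (k - 1) := by
        obtain ⟨j, rfl⟩ : ∃ j, k = j + 1 := ⟨k - 1, by omega⟩
        rw [Nat.add_sub_cancel]
        have : l * (j + 1) = l * j + l := by ring
        omega
      rw [h3, Nat.add_mul_mod_self_left, Nat.mod_eq_of_lt (by omega)]
    have h4 : ((l - 1 : ℕ) : ZMod 2) = 0 := by
      obtain ⟨j, rfl⟩ := hl
      rw [Nat.add_sub_cancel]
      push_cast
      rw [show (2 : ZMod 2) = 0 from by decide, zero_mul]
    rw [h1, h4]
    decide
  · rw [if_neg h]
    have h1 : (n + 1) % l = n % l + 1 := by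
      have h2 := Nat.mod_lt n hl0
      by_cases h3 : n % l + 1 = l
      · exfalso
        apply h
        have h4 := Nat.div_add_mod n l
        exact ⟨n / l + 1, by rw [mul_add, mul_one]; omega⟩
      · rw [Nat.add_mod, Nat.mod_eq_of_lt (show 1 < l by
          rcases Nat.lt_or_ge 1 l with h5 | h5
          · exact h5
          · exfalso
            have h6 : l = 1 := by omega
            apply h
            rw [h6]; exact one_dvd _), Nat.mod_eq_of_lt (by omega)]
    rw [h1]
    push_cast
    calc ((n % l : ℕ) : ZMod 2) + 1 + ((n % l : ℕ) : ZMod 2) =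
        (((n % l : ℕ) : ZMod 2) + ((n % l : ℕ) : ZMod 2)) + 1 := by ring
      _ = 1 + 0 := by rw [add_self2]; ring

lemma aux4 (x y : ZMod 2) : x + y + ((1 + x) + (1 + y)) = 0 := by
  revert x y; decide

lemma aux6 {a b c d u v : ZMod 2} (h1 : a + u = c + v) (h2 : u + b = v + d) : a + b = c + d := by
  revert a b c d u v; decide

/-- the sum over a period does not depend on the start -/
lemma sum_per {f : ℕ → ZMod 2} {l : ℕ} (hf : Function.Periodic f l) (N : ℕ) :
    ∑ x ∈ range l, f (x + N) = ∑ x ∈ range l, f x := by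
  induction N with
  | zero => simp
  | succ N ih =>
    rw [← ih]
    have h1 : ∑ x ∈ range l, f (x + (N + 1)) + f N = ∑ x ∈ range l, f (x + N) + f (l + N) := by
      have e1 := sum_range_succ' (fun x => f (x + N)) l
      have e2 := sum_range_succ (fun x => f (x + N)) l
      simp only [zero_add] at e1
      rw [e1] at e2
      have e3 : ∑ x ∈ range l, f (x + (N + 1)) = ∑ x ∈ range l, f (x + 1 + N) :=
        sum_congr rfl fun x _ => by congr 1; ring
      rw [e3]
      exact e2
    have h2 : f (l + N) = f N := by rw [add_comm]; exact hf N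
    rw [h2] at h1
    exact add_right_cancel h1

/-- both periodic with coprime periods: constant -/
lemma const_of {f : ℕ → ZMod 2} {l N : ℕ} (h1 : Function.Periodic f l) (h2 : Function.Periodic f N)
    (hlN : l.Coprime N) (n : ℕ) : f n = f 0 := by
  obtain ⟨e, he1, he2⟩ := Nat.chineseRemainder hlN n 0
  have h3 : f n = f e := per_mod h1 he1.symm
  have h4 : f e = f 0 := per_mod h2 he2
  rw [h3, h4]

theorem t_STU (hstar : S_STAR) (hdec : S_DEC) : ∀ (l M : ℕ), l.Prime → l ≠ 2 → 0 < M → ¬ l ∣ M →
    ∃ N : ℕ, 0 < N ∧ ¬ l ∣ N ∧ M ∣ N ∧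
      Function.Periodic (fun n => (pA (Set.Icc 1 (l + 1)) n : ZMod 2) + par l n) N := by
  intro l M hl hl2 hM0 hM
  haveI := Fact.mk Nat.prime_two
  have hlodd : Odd l := hl.odd_of_ne_two hl2
  have hl3 : 3 ≤ l := by
    have := hl.two_le
    rcases Nat.lt_or_ge l 3 with h | h
    · exact absurd (by omega) hl2
    · exact h
  set A : Finset ℕ := Icc 1 (l + 1) with hAdef
  have hA : ∀ a ∈ A, 0 < a := fun a ha => by rw [hAdef, mem_Icc] at ha; omega
  have hlA : l ∈ A := by rw [hAdef, mem_Icc]; omega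
  have hlone : ∀ a ∈ A, a ≠ l → ¬ l ∣ a := by
    intro a ha hne hd
    rw [hAdef, mem_Icc] at ha
    obtain ⟨k, rfl⟩ := hd
    have hk0 : k ≠ 0 := by rintro rfl; omega
    have hk1 : k ≠ 1 := by rintro rfl; omega
    have : l * 2 ≤ l * k := Nat.mul_le_mul_left _ (by omega)
    omega
  set B := A.erase l with hB
  set M' := M * ((∏ a ∈ B, a) * 2 ^ A.card) with hM'
  have hM'0 : 0 < M' := Nat.mul_pos hM0
    (Nat.mul_pos (prod_pos fun a ha => hA a (mem_of_mem_erase ha)) (by positivity))
  have hlM' : ¬ l ∣ M' := by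
    rw [hM', hl.dvd_mul, hl.dvd_mul, not_or, not_or, hl.prime.dvd_finsetProd_iff]
    refine ⟨hM, ?_, fun h => hl2 ((Nat.prime_dvd_prime_iff_eq hl Nat.prime_two).1
      (hl.dvd_of_dvd_pow h))⟩
    rintro ⟨a, ha, hla⟩
    exact hlone a (mem_of_mem_erase ha) (ne_of_mem_erase ha) hla
  obtain ⟨u, N, hN0, hlN, hMN, -, hu1, hu2, -⟩ := hdec A l M' hA hlA hl hl2 hlone hM'0 hlM'
  have hcop : l.Coprime N := (Nat.Prime.coprime_iff_not_dvd hl).2 hlN
  obtain ⟨t, ht⟩ := hMN
  -- the polynomial `K`
  obtain ⟨K, hK⟩ := prod_dvd B (M * (∏ a ∈ B, a) * t) A.card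
    (fun b hb => ((dvd_prod_of_mem _ hb).mul_left _).mul_right _)
    ((card_erase_le).trans (Nat.lt_two_pow_self).le)
  have eN : M * (∏ a ∈ B, a) * t * 2 ^ A.card = N := by rw [ht, hM']; ring
  rw [eN] at hK
  have hprodA : (∏ a ∈ A, (1 - Polynomial.X ^ a) : Polynomial (ZMod 2)) =
      (1 - Polynomial.X ^ l) * ∏ a ∈ B, (1 - Polynomial.X ^ a) := by
    rw [hB, mul_prod_erase A (fun a => (1 - Polynomial.X ^ a : Polynomial (ZMod 2))) hlA]
  have hgen := gen_mul A hA
  have hAset : (A : Set ℕ) = Set.Icc 1 (l + 1) := by rw [hAdef, coe_Icc]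
  have hKgen : ((1 - Polynomial.X ^ l : Polynomial (ZMod 2)) : PowerSeries (ZMod 2)) *
      (((1 - Polynomial.X ^ N : Polynomial (ZMod 2)) : PowerSeries (ZMod 2)) * gen (A : Set ℕ)) = K := by
    rw [hK, ← mul_assoc, ← Polynomial.coe_mul, ← mul_assoc, ← hprodA, Polynomial.coe_mul,
      mul_comm (_ : PowerSeries (ZMod 2)) (K : PowerSeries (ZMod 2)), mul_assoc, hgen, mul_one]
  -- `B` is `1, ..., l - 1` and `l + 1`
  have hprodB : (∏ a ∈ B, (1 - Polynomial.X ^ a) : Polynomial (ZMod 2)) =
      (∏ j ∈ Ico 1 l, (1 - Polynomial.X ^ j)) * (1 - Polynomial.X ^ (l + 1)) := by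
    have h1 : B = insert (l + 1) (Ico 1 l) := by
      ext a
      rw [hB, mem_erase, hAdef, mem_Icc, mem_insert, mem_Ico]
      omega
    rw [h1, prod_insert (by rw [mem_Ico]; omega), mul_comm]
  obtain ⟨Z1, hZ1⟩ := hstar l hl hl2
  -- `(1 - X) K = (1 - X ^ N) + (1 - X ^ l) Z`
  have hZ : ∃ Z : Polynomial (ZMod 2), (1 - Polynomial.X) * K =
      (1 - Polynomial.X ^ N) + (1 - Polynomial.X ^ l) * Z := by
    refine ⟨Z1 * K - Polynomial.X * (∏ j ∈ Ico 1 l, (1 - Polynomial.X ^ j)) * K, ?_⟩
    rw [hK, hprodB]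
    have e1 : (1 - Polynomial.X : Polynomial (ZMod 2)) * (∏ j ∈ Ico 1 l, (1 - Polynomial.X ^ j)) =
        (1 - Polynomial.X) - (1 - Polynomial.X ^ l) * Z1 := by
      have e2 : (1 - Polynomial.X : Polynomial (ZMod 2)) * (∏ j ∈ Ico 1 l, (1 - Polynomial.X ^ j)) =
          (1 - Polynomial.X) * (∏ j ∈ Ico 1 l, (1 - Polynomial.X ^ j) - 1) + (1 - Polynomial.X) := by
        ring
      rw [e2, hZ1]
      ring
    have e3 : (1 - Polynomial.X ^ (l + 1) : Polynomial (ZMod 2)) =
        (1 - Polynomial.X) + Polynomial.X * (1 - Polynomial.X ^ l) := by ring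
    rw [e3]
    have e4 : (∏ j ∈ Ico 1 l, (1 - Polynomial.X ^ j) : Polynomial (ZMod 2)) *
        ((1 - Polynomial.X) + Polynomial.X * (1 - Polynomial.X ^ l)) =
        ((1 - Polynomial.X) - (1 - Polynomial.X ^ l) * Z1) +
          (∏ j ∈ Ico 1 l, (1 - Polynomial.X ^ j)) * (Polynomial.X * (1 - Polynomial.X ^ l)) := by
      rw [mul_add, mul_comm _ (1 - Polynomial.X : Polynomial (ZMod 2)), e1]
    rw [e4]
    ring
  obtain ⟨Z, hZ⟩ := hZ
  -- the difference of `s`
  set s : ℕ → ZMod 2 := fun n => (pA (A : Set ℕ) n : ZMod 2) with hs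
  set G : PowerSeries (ZMod 2) := ((1 - Polynomial.X ^ N : Polynomial (ZMod 2)) :
      PowerSeries (ZMod 2)) * gen (A : Set ℕ) with hG
  have hGc : ∀ n, PowerSeries.coeff (n + N) G = s (n + N) + s n := by
    intro n
    rw [hG, Polynomial.coe_sub, Polynomial.coe_one, Polynomial.coe_pow, Polynomial.coe_X, sub_mul,
      one_mul, map_sub, PowerSeries.coeff_X_pow_mul', if_pos (by omega)]
    unfold gen
    simp only [PowerSeries.coeff_mk]
    rw [Nat.add_sub_cancel, CharTwo.sub_eq_add]
  have hGu : ∀ n, s (n + N) + s n = u (n + N) + u n := by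
    intro n
    have h1 := hu2 n
    simp only at h1
    have h2 : (s (n + N) + s n) + (u (n + N) + u n) = 0 := by
      calc _ = (s (n + N) + u (n + N)) + (s n + u n) := by ring
        _ = 0 := by
          rw [hs]
          simp only
          rw [h1]
          exact add_self2 _
    exact eq_of_add2 h2
  -- the geometric series
  set J : PowerSeries (ZMod 2) := PowerSeries.mk fun n => if l ∣ n then 1 else 0 with hJ
  have hJ1 : (1 - PowerSeries.X ^ l) * J = 1 := by
    ext n
    rw [sub_mul, one_mul, map_sub, PowerSeries.coeff_X_pow_mul', PowerSeries.coeff_one, hJ]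
    simp only [PowerSeries.coeff_mk]
    by_cases hn : n = 0
    · subst hn
      rw [if_pos (dvd_zero _), if_neg (by omega), if_pos rfl, sub_zero]
    · rw [if_neg hn]
      by_cases hln : l ≤ n
      · rw [if_pos hln]
        have : l ∣ n ↔ l ∣ n - l := by
          constructor
          · intro h; exact Nat.dvd_sub h dvd_rfl
          · intro h
            have h2 := Nat.dvd_add h (dvd_refl l)
            rwa [Nat.sub_add_cancel hln] at h2
        by_cases h : l ∣ n
        · rw [if_pos h, if_pos (this.1 h), sub_self]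
        · rw [if_neg h, if_neg (fun h2 => h (this.2 h2)), sub_self]
      · rw [if_neg hln, if_neg (fun h => hln (Nat.le_of_dvd (by omega) h)), sub_zero]
  have hXG : (1 - PowerSeries.X) * G = (1 - PowerSeries.X ^ N) * J + (Z : PowerSeries (ZMod 2)) := by
    have e1 : ∀ k : ℕ, ((1 - Polynomial.X ^ k : Polynomial (ZMod 2)) : PowerSeries (ZMod 2)) =
        1 - PowerSeries.X ^ k := by
      intro k
      rw [Polynomial.coe_sub, Polynomial.coe_one, Polynomial.coe_pow, Polynomial.coe_X]
    have e2 : (1 - PowerSeries.X ^ l) * ((1 - PowerSeries.X) * G) =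
        (1 - PowerSeries.X ^ l) * ((1 - PowerSeries.X ^ N) * J + (Z : PowerSeries (ZMod 2))) := by
      have h1 := congrArg (fun p : Polynomial (ZMod 2) => (p : PowerSeries (ZMod 2))) hZ
      simp only [Polynomial.coe_mul, Polynomial.coe_add, Polynomial.coe_sub, Polynomial.coe_one,
        Polynomial.coe_pow, Polynomial.coe_X] at h1
      rw [← hKgen, e1] at h1
      calc (1 - PowerSeries.X ^ l) * ((1 - PowerSeries.X) * G) =
          (1 - PowerSeries.X) * ((1 - PowerSeries.X ^ l) * G) := by ring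
        _ = (1 - PowerSeries.X ^ N) + (1 - PowerSeries.X ^ l) * (Z : PowerSeries (ZMod 2)) := h1
        _ = (1 - PowerSeries.X ^ N) * ((1 - PowerSeries.X ^ l) * J) +
            (1 - PowerSeries.X ^ l) * (Z : PowerSeries (ZMod 2)) := by rw [hJ1, mul_one]
        _ = _ := by ring
    have e3 : (1 - PowerSeries.X ^ l : PowerSeries (ZMod 2)) ≠ 0 := by
      intro h
      rw [h, zero_mul] at hJ1
      exact zero_ne_one hJ1
    exact mul_left_cancel₀ e3 e2
  -- the steps of the difference agree with the steps of the difference of `par`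
  have hstep : ∀ n, Z.natDegree < n + N + 1 →
      (s (n + 1 + N) + s (n + 1)) + (s (n + N) + s n) =
      (if l ∣ n + N + 1 then 1 else 0) + (if l ∣ n + 1 then 1 else 0) := by
    intro n hn
    have h1 := congrArg (PowerSeries.coeff (n + N + 1)) hXG
    rw [map_add, Polynomial.coeff_coe, Polynomial.coeff_eq_zero_of_natDegree_lt hn, add_zero, sub_mul,
      one_mul, map_sub, sub_mul, one_mul, map_sub, PowerSeries.coeff_X_pow_mul', if_pos (by omega),
      mul_comm PowerSeries.X G, PowerSeries.coeff_succ_mul_X] at h1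
    rw [show n + N + 1 = n + 1 + N by ring, hGc, hGc, show n + 1 + N - N = n + 1 by omega, hJ] at h1
    simp only [PowerSeries.coeff_mk] at h1
    rw [CharTwo.sub_eq_add, CharTwo.sub_eq_add] at h1
    rw [h1, show n + N + 1 = n + 1 + N by ring]
  -- the difference of `u` and `par`
  set w : ℕ → ZMod 2 := fun n => u n + par l n with hw
  have hwl : Function.Periodic w l := fun n => by
    simp only [hw]
    rw [hu1 n, par_per l n]
  have hDw : ∀ n, Z.natDegree < n + N + 1 → (w (n + 1 + N) + w (n + 1)) + (w (n + N) + w n) = 0 := by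
    intro n hn
    have h1 := hstep n hn
    rw [hGu, hGu] at h1
    have h2 := par_step hlodd n
    have h3 := par_step hlodd (n + N)
    simp only [hw]
    rw [show n + 1 + N = n + N + 1 by ring] at h1 ⊢
    calc _ = ((u (n + N + 1) + u (n + 1)) + (u (n + N) + u n)) +
        ((par l (n + N + 1) + par l (n + N)) + (par l (n + 1) + par l n)) := by ring
      _ = ((if l ∣ n + N + 1 then 1 else 0) + (if l ∣ n + 1 then 1 else 0)) +
          ((1 + if l ∣ n + N + 1 then 1 else 0) + (1 + if l ∣ n + 1 then 1 else 0)) := by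
        rw [h1, h2, h3]
      _ = 0 := aux4 _ _
  have hDw2 : ∀ n, w (n + 1 + N) + w (n + 1) = w (n + N) + w n := by
    intro n
    have h1 := hDw (n + l * (Z.natDegree + 1)) (by nlinarith [hl.pos])
    have e : ∀ k, w (k + l * (Z.natDegree + 1)) = w k := by
      intro k
      have := hwl.nat_mul (Z.natDegree + 1) k
      rw [Nat.cast_id] at this
      rw [mul_comm l]
      exact this
    rw [show n + l * (Z.natDegree + 1) + 1 + N = (n + 1 + N) + l * (Z.natDegree + 1) by ring,
      show n + l * (Z.natDegree + 1) + 1 = (n + 1) + l * (Z.natDegree + 1) by ring,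
      show n + l * (Z.natDegree + 1) + N = (n + N) + l * (Z.natDegree + 1) by ring, e, e, e, e] at h1
    exact eq_of_add2 h1
  have hconst : ∀ n, w (n + N) + w n = w (0 + N) + w 0 := by
    intro n
    induction n with
    | zero => rfl
    | succ n ih => rw [hDw2, ih]
  have hc0 : w (0 + N) + w 0 = 0 := by
    have h1 : ∑ x ∈ range l, (w (x + N) + w x) = 0 := by
      rw [sum_add_distrib, sum_per hwl N]
      exact add_self2 _
    rw [sum_congr rfl fun x _ => hconst x, sum_const, card_range, nsmul_eq_mul, odd_cast hlodd,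
      one_mul] at h1
    exact h1
  have hwN : Function.Periodic w N := by
    intro n
    have := hconst n
    rw [hc0] at this
    exact eq_of_add2 this
  refine ⟨N, hN0, hlN, ?_, ?_⟩
  · rw [ht, hM', mul_assoc]
    exact dvd_mul_right _ _
  · intro n
    simp only
    rw [← hAset]
    have h1 := hu2 n
    simp only at h1
    have h2 := hwN n
    simp only [hw] at h2
    exact aux6 h1 h2

end Pool.Agent.D0H10.BP
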